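import Pool.Agent.helper51.PC.Spec

/-!
# Row pc:SEP (MP_74cfa5_ag)
-/

set_option autoImplicit false

namespace Pool.Agent.PC

open MvPolynomial

universe u

lemma SEP_poly {F : Type u} [Field F] (p : ℕ) [CharP F p] (c : F) :
    ((Polynomial.X : Polynomial F) ^ p - Polynomial.X - Polynomial.C c).Separable := by
  rw [Polynomial.separable_def]
  have h1 : Polynomial.derivative ((Polynomial.X : Polynomial F) ^ p - Polynomial.X -
      Polynomial.C c) = -1 := by
    rw [Polynomial.derivative_sub, Polynomial.derivative_sub, Polynomial.derivative_X_pow,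
      Polynomial.derivative_X, Polynomial.derivative_C, CharP.cast_eq_zero, Polynomial.C_0]
    ring
  rw [h1]
  exact ⟨0, -1, by ring⟩

lemma SEP_field {F K : Type u} [Field F] [Field K] [Algebra F K] (p : ℕ) [CharP F p]
    (a : K) (c : F) (hc : algebraMap F K c = a ^ p - a)
    (h : ∀ y : K, ∃ b : Fin p → F, y = ∑ i, algebraMap F K (b i) * a ^ (i : ℕ)) :
    FiniteDimensional F K ∧ Algebra.IsSeparable F K := by
  have haev : Polynomial.aeval a ((Polynomial.X : Polynomial F) ^ p - Polynomial.X -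
      Polynomial.C c) = 0 := by
    simp [hc]
  have hsep : IsSeparable F a :=
    (SEP_poly p c).of_dvd (minpoly.dvd F a haev)
  constructor
  · refine Module.Finite.of_surjective (M := Fin p → F)
      (∑ i : Fin p, (LinearMap.toSpanSingleton F K (a ^ (i : ℕ))).comp
        (LinearMap.proj (φ := fun _ : Fin p => F) i)) ?_
    intro y
    obtain ⟨b, hb⟩ := h y
    refine ⟨b, ?_⟩
    rw [hb]
    simp [LinearMap.sum_apply, Algebra.smul_def]
  · refine ⟨fun y => ?_⟩
    have ha : a ∈ separableClosure F K := mem_separableClosure_iff.2 hsep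
    obtain ⟨b, hb⟩ := h y
    rw [← mem_separableClosure_iff, hb]
    exact sum_mem fun i _ => mul_mem ((separableClosure F K).algebraMap_mem _) (pow_mem ha _)

theorem SEP (hSGK : SGK_stmt.{u}) (hFIX : FIX_stmt.{u}) (hEXP : EXP_stmt.{u}) : SEP_stmt.{u} := by
  intro k _ n d p hN hpk
  letI : Algebra (FF k n d) (KK k n) := (io k n d).toRingHom.toAlgebra
  show FiniteDimensional (FF k n d) (KK k n) ∧ Algebra.IsSeparable (FF k n d) (KK k n)
  haveI := hpk
  obtain ⟨hp, h4, hdn, hdp, _⟩ := id hN
  haveI : Fact p.Prime := ⟨hp⟩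
  haveI : CharP (FF k n d) p :=
    charP_of_injective_algebraMap (algebraMap k (FF k n d)).injective p
  haveI : CharP (KK k n) p :=
    charP_of_injective_algebraMap (algebraMap k (KK k n)).injective p
  obtain ⟨h1, s, hs, hsp, _⟩ := hSGK k n d p hN hpk
  have hfix := hFIX k n d p hN h1 s hs
  have hx0 : xx k n ⟨0, by omega⟩ ≠ 0 := by
    intro h
    rw [xx] at h
    have h2 := (IsFractionRing.injective (AA k n) (KK k n)) (h.trans (map_zero _).symm)
    exact MvPolynomial.X_ne_zero _ h2
  have hs0 : s (xx k n ⟨0, by omega⟩) = xx k n ⟨0, by omega⟩ := by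
    rw [xx, hs, sg, aeval_X, dif_neg (by simp), add_zero]
  have hs1 : s (xx k n ⟨1, by omega⟩) = xx k n ⟨1, by omega⟩ + xx k n ⟨0, by omega⟩ := by
    rw [xx, hs, sg, aeval_X, dif_pos (by constructor <;> simp; omega), map_add]
    rfl
  set a : KK k n := xx k n ⟨1, by omega⟩ / xx k n ⟨0, by omega⟩ with ha
  have hsa : s a = a + 1 := by
    rw [ha, map_div₀, hs0, hs1]
    field_simp
  have hca : s (a ^ p - a) = a ^ p - a := by
    rw [map_sub, map_pow, hsa, add_pow_char, one_pow]
    ring
  obtain ⟨c, hc⟩ := (hfix _).1 hca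
  refine SEP_field p a c hc fun y => ?_
  obtain ⟨e, he, hy⟩ := hEXP (KK k n) p s hsp a hsa y
  choose b hb using fun i => (hfix (e i)).1 (he i)
  refine ⟨b, ?_⟩
  rw [hy]
  refine Finset.sum_congr rfl fun i _ => ?_
  rw [← hb i]
  rfl

end Pool.Agent.PC
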